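import Pool.Agent.Y330.FP.A4

/-! The exponent of the generalised chessboards. -/

set_option autoImplicit false

namespace Pool.Agent.Y330.FP

open Finset Pool.Agent.H372R3 Filter

theorem big_board (m : ℕ) (hm : 2 ≤ m) :
    Big (2 * m) (Real.log ((2 * m).factorial : ℝ) / Real.log (2 * m)) := by
  intro ε hε
  obtain ⟨e, he⟩ : ∃ e : ℝ, e = Real.log ((2 * m).factorial : ℝ) / Real.log (2 * m) := ⟨_, rfl⟩
  rw [← he]
  obtain ⟨n₁, hn₁⟩ := ev_big ε ((16 * (m : ℝ) ^ 2) ^ e) hε
  refine ⟨max n₁ (8 * m), fun n hn => ?_⟩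
  have hnn1 : n ≥ n₁ := le_trans (le_max_left _ _) hn
  have hnn2 : 8 * m ≤ n := le_trans (le_max_right _ _) hn
  obtain ⟨k, hk1, hk2⟩ : ∃ k : ℕ, 4 * m * (2 * m) ^ k + 4 * m ≤ n ∧
      n < 4 * m * (2 * m) ^ (k + 1) + 4 * m := by
    have hex : ∃ k, n < 4 * m * (2 * m) ^ k + 4 * m := by
      refine ⟨n, ?_⟩
      have h1 : n < (2 * m) ^ n := Nat.lt_pow_self (by omega)
      have h2 : (2 * m) ^ n ≤ 4 * m * (2 * m) ^ n := Nat.le_mul_of_pos_left _ (by omega)
      omega
    have hfind := Nat.find_spec hex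
    have hmin := fun j => Nat.find_min hex (m := j)
    obtain ⟨k, hk⟩ : ∃ k, Nat.find hex = k + 1 := by
      refine ⟨Nat.find hex - 1, ?_⟩
      have : Nat.find hex ≠ 0 := by
        intro h0
        rw [h0, pow_zero] at hfind
        omega
      omega
    rw [hk] at hfind
    refine ⟨k, ?_, hfind⟩
    have := hmin k (by omega)
    omega
  obtain ⟨r, hr⟩ : ∃ r, r = n - 4 * m * (2 * m) ^ k - 2 * (2 * m - 2) := ⟨_, rfl⟩
  have hr4 : 4 ≤ r := by omega
  have : NeZero r := ⟨by omega⟩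
  have : NeZero (2 * m) := ⟨by omega⟩
  have hH : PM (2 * m) (joinG (cyc r) (board (2 * m - 2) 0)) := by
    have := (cyc_PM hr4).join (board_PM (2 * m - 2) 0)
    rwa [show 2 + (2 * m - 2) = 2 * m by omega] at this
  have hG := (board_PM (2 * m) k).sum (by omega) hH
  refine ⟨_, inferInstance, _, inferInstance,
    board (2 * m) k ⊕g joinG (cyc r) (board (2 * m - 2) 0), ?_, hG, ?_⟩
  · simp only [Fintype.card_sum, Fintype.card_prod, Fintype.card_fin, Fintype.card_pi,
      Finset.prod_const, Finset.card_univ, Fintype.card_bool, ZMod.card, pow_zero]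
    have : 2 * m * ((2 * m) ^ k * 2) = 4 * m * (2 * m) ^ k := by ring
    omega
  · have h2 := board_facets (D := 2 * m) (k := k) (by omega)
      (joinG (cyc r) (board (2 * m - 2) 0))
    rw [faceNum_cliqueCx, show 2 * m - 1 + 1 = 2 * m by omega] at h2
    have h3 : ((2 * m).factorial) ^ k ≤
        fac (2 * m) (board (2 * m) k ⊕g joinG (cyc r) (board (2 * m - 2) 0)) :=
      le_trans (Nat.le_mul_of_pos_right _ (by positivity)) h2
    have h4 : (((2 * m).factorial : ℝ)) ^ k ≤
        (fac (2 * m) (board (2 * m) k ⊕g joinG (cyc r) (board (2 * m - 2) 0)) : ℝ) := by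
      exact_mod_cast h3
    refine le_trans ?_ h4
    have hm0 : (0 : ℝ) < m := by
      have : 0 < m := by omega
      exact_mod_cast this
    have hm1 : (1 : ℝ) < 2 * m := by
      have : 1 < 2 * m := by omega
      exact_mod_cast this
    have hlog : 0 < Real.log (2 * m) := Real.log_pos hm1
    have hn0 : (0 : ℝ) < n := by
      have : 0 < n := by omega
      exact_mod_cast this
    have he0 : 0 ≤ e := by
      rw [he]
      apply div_nonneg _ hlog.le
      apply Real.log_nonneg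
      exact_mod_cast Nat.one_le_iff_ne_zero.2 (Nat.factorial_ne_zero _)
    have hF : ((2 * m).factorial : ℝ) = (2 * (m : ℝ)) ^ e := by
      have hF0 : (0 : ℝ) < ((2 * m).factorial : ℝ) := by exact_mod_cast Nat.factorial_pos _
      rw [Real.rpow_def_of_pos (by linarith), he, mul_div_cancel₀ _ hlog.ne', Real.exp_log hF0]
    have hx : (n : ℝ) ≤ (16 * (m : ℝ) ^ 2) * (2 * m) ^ k := by
      have e1 : n ≤ (16 * m ^ 2) * (2 * m) ^ k := by
        have e2 : 4 * m * (2 * m) ^ (k + 1) = 8 * m ^ 2 * (2 * m) ^ k := by ring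
        have e3 : 1 ≤ (2 * m) ^ k := Nat.one_le_pow _ _ (by omega)
        have e4 : 4 * m ≤ 8 * m ^ 2 * (2 * m) ^ k := by nlinarith [Nat.mul_le_mul hm e3]
        have e5 : (16 * m ^ 2) * (2 * m) ^ k = 8 * m ^ 2 * (2 * m) ^ k + 8 * m ^ 2 * (2 * m) ^ k := by
          ring
        omega
      exact_mod_cast e1
    have hC := hn₁ n hnn1
    have hpos : (0 : ℝ) < (16 * (m : ℝ) ^ 2) ^ e := Real.rpow_pos_of_pos (by positivity) _
    calc (n : ℝ) ^ (e - ε) = (n : ℝ) ^ e / (n : ℝ) ^ ε := Real.rpow_sub hn0 _ _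
      _ ≤ ((16 * (m : ℝ) ^ 2) * (2 * m) ^ k) ^ e / (16 * (m : ℝ) ^ 2) ^ e := by
          apply div_le_div₀ (Real.rpow_nonneg (by positivity) _)
            (Real.rpow_le_rpow hn0.le hx he0) hpos hC
      _ = ((2 * (m : ℝ)) ^ k) ^ e := by
          rw [Real.mul_rpow (by positivity) (by positivity)]
          field_simp
      _ = ((2 * m).factorial : ℝ) ^ k := by
          rw [hF, ← Real.rpow_natCast, ← Real.rpow_mul (by positivity), ← Real.rpow_natCast,
            ← Real.rpow_mul (by positivity), mul_comm (k : ℝ) e]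

theorem log_fact_ge (m : ℕ) (hm : 2 ≤ m) :
    2 * (m : ℝ) * (1 - 1 / Real.log (2 * m)) ≤
      Real.log ((2 * m).factorial : ℝ) / Real.log (2 * m) := by
  have hm0 : (0 : ℝ) < m := by
    have : 0 < m := by omega
    exact_mod_cast this
  have hm1 : (1 : ℝ) < 2 * m := by
    have : 1 < 2 * m := by omega
    exact_mod_cast this
  have hlog : 0 < Real.log (2 * m) := Real.log_pos hm1
  have hF0 : (0 : ℝ) < ((2 * m).factorial : ℝ) := by exact_mod_cast Nat.factorial_pos _
  have h1 := Real.pow_div_factorial_le_exp (2 * (m : ℝ)) (by positivity) (2 * m)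
  have h2 : (2 * (m : ℝ)) ^ (2 * m) ≤ Real.exp (2 * m) * ((2 * m).factorial : ℝ) := by
    rwa [div_le_iff₀ hF0] at h1
  have h3 := Real.log_le_log (by positivity) h2
  rw [Real.log_pow, Real.log_mul (Real.exp_pos _).ne' hF0.ne', Real.log_exp] at h3
  push_cast at h3
  rw [le_div_iff₀ hlog]
  have h4 : 2 * (m : ℝ) * (1 - 1 / Real.log (2 * m)) * Real.log (2 * m) =
      2 * m * Real.log (2 * m) - 2 * m := by
    field_simp
  rw [h4]
  linarith

theorem big_max (m : ℕ) (hm : 2 ≤ m) :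
    Big (2 * m) (max ((3 * m / 2 : ℕ) : ℝ) (Real.log ((2 * m).factorial : ℝ) / Real.log (2 * m))) := by
  rcases le_total ((3 * m / 2 : ℕ) : ℝ) (Real.log ((2 * m).factorial : ℝ) / Real.log (2 * m)) with h | h
  · rw [max_eq_right h]; exact big_board m hm
  · rw [max_eq_left h]; exact big_all m (by omega)

end Pool.Agent.Y330.FP
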