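import Mathlib

/-! Short vectors in a discrete torus: lifts, squared norms, the parallelogram law. -/

set_option autoImplicit false

namespace Pool.Agent.Y330.FP

open Finset

variable {d M : ℕ}

/-- The squared norm of the shortest lift. -/
def nrm (x : Fin d → ZMod M) : ℕ := ∑ t, ((x t).valMinAbs.natAbs) ^ 2

theorem nrm_neg (x : Fin d → ZMod M) : nrm (-x) = nrm x := by
  unfold nrm
  refine Finset.sum_congr rfl fun t _ => ?_
  rw [Pi.neg_apply, ZMod.natAbs_valMinAbs_neg]

theorem nrm_sub_comm (x y : Fin d → ZMod M) : nrm (x - y) = nrm (y - x) := by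
  rw [← nrm_neg, neg_sub]

theorem nrm_cast (x : Fin d → ZMod M) : ((nrm x : ℕ) : ℤ) = ∑ t, (x t).valMinAbs ^ 2 := by
  unfold nrm
  push_cast
  refine Finset.sum_congr rfl fun t _ => ?_
  rw [sq_abs]

theorem nrm_eq_zero [NeZero M] {x : Fin d → ZMod M} (h : nrm x = 0) : x = 0 := by
  unfold nrm at h
  rw [Finset.sum_eq_zero_iff] at h
  funext t
  have := h t (Finset.mem_univ _)
  simpa using this

/-- short: every coordinate has a lift of absolute value less than `M / 4` -/
def Sh (x : Fin d → ZMod M) : Prop := 16 * nrm x < M ^ 2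

theorem Sh.coord {x : Fin d → ZMod M} (h : Sh x) (t : Fin d) :
    4 * |(x t).valMinAbs| < (M : ℤ) := by
  have h1 : ((x t).valMinAbs.natAbs) ^ 2 ≤ nrm x :=
    Finset.single_le_sum (f := fun t => ((x t).valMinAbs.natAbs) ^ 2) (fun _ _ => Nat.zero_le _)
      (Finset.mem_univ t)
  have h2 : (4 * (x t).valMinAbs.natAbs) ^ 2 < M ^ 2 := by
    unfold Sh at h
    nlinarith
  have h3 : 4 * (x t).valMinAbs.natAbs < M := lt_of_pow_lt_pow_left₀ 2 (Nat.zero_le _) h2
  have h4 : |(x t).valMinAbs| = ((x t).valMinAbs.natAbs : ℤ) := Int.abs_eq_natAbs _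
  rw [h4]
  exact_mod_cast h3

theorem vm_add [NeZero M] {x y : Fin d → ZMod M} (hx : Sh x) (hy : Sh y) (t : Fin d) :
    ((x + y) t).valMinAbs = (x t).valMinAbs + (y t).valMinAbs := by
  rw [ZMod.valMinAbs_spec]
  have h1 := hx.coord t
  have h2 := hy.coord t
  have a1 := neg_abs_le (x t).valMinAbs
  have a2 := le_abs_self (x t).valMinAbs
  have b1 := neg_abs_le (y t).valMinAbs
  have b2 := le_abs_self (y t).valMinAbs
  refine ⟨by push_cast; simp, ?_, ?_⟩ <;> linarith

theorem Sh.neg {x : Fin d → ZMod M} (h : Sh x) : Sh (-x) := by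
  unfold Sh at *
  rw [nrm_neg]; exact h

theorem vm_sub [NeZero M] {x y : Fin d → ZMod M} (hx : Sh x) (hy : Sh y) (t : Fin d) :
    ((x - y) t).valMinAbs = (x t).valMinAbs - (y t).valMinAbs := by
  rw [ZMod.valMinAbs_spec]
  have h1 := hx.coord t
  have h2 := hy.coord t
  have a1 := neg_abs_le (x t).valMinAbs
  have a2 := le_abs_self (x t).valMinAbs
  have b1 := neg_abs_le (y t).valMinAbs
  have b2 := le_abs_self (y t).valMinAbs
  refine ⟨by push_cast; simp, ?_, ?_⟩ <;> linarith

/-- the parallelogram law -/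
theorem par_law [NeZero M] {x y : Fin d → ZMod M} (hx : Sh x) (hy : Sh y) :
    nrm (x + y) + nrm (x - y) = 2 * nrm x + 2 * nrm y := by
  have h : ((nrm (x + y) + nrm (x - y) : ℕ) : ℤ) = ((2 * nrm x + 2 * nrm y : ℕ) : ℤ) := by
    push_cast
    rw [nrm_cast, nrm_cast, nrm_cast, nrm_cast, Finset.mul_sum, Finset.mul_sum,
      ← Finset.sum_add_distrib, ← Finset.sum_add_distrib]
    refine Finset.sum_congr rfl fun t _ => ?_
    rw [vm_add hx hy, vm_sub hx hy]
    ring
  exact_mod_cast h

/-- `a, b` are two sides of a parallelogram; `a', b'` are two vectors with the same sum and the same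
lengths and `b' - a` has the length of `b - a`; then they are the same vectors. -/
theorem par_unique [NeZero M] {a b a' b' : Fin d → ZMod M} (ha : Sh a) (hb : Sh b) (ha' : Sh a')
    (hb' : Sh b') (hs : a + b = a' + b') (h1 : nrm a' = nrm a) (h2 : nrm b' = nrm b)
    (h3 : nrm (b' - a) = nrm (b - a)) : b' = b := by
  have hA : ∀ t, (a' t).valMinAbs = (a t).valMinAbs + (b t).valMinAbs - (b' t).valMinAbs := by
    intro t
    have e1 := vm_add ha hb t
    have e2 := vm_add ha' hb' t
    rw [hs] at e1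
    linarith
  have hp := par_law hb ha
  have key : ((nrm (b - b') : ℕ) : ℤ) = 0 := by
    have e : ((nrm (b - b') : ℕ) : ℤ) = (nrm a' : ℤ) - nrm (a + b) - nrm (b' - a) + nrm a + nrm b +
        nrm b' := by
      rw [nrm_cast, nrm_cast, nrm_cast, nrm_cast, nrm_cast, nrm_cast, nrm_cast,
        ← Finset.sum_sub_distrib, ← Finset.sum_sub_distrib, ← Finset.sum_add_distrib,
        ← Finset.sum_add_distrib, ← Finset.sum_add_distrib]
      refine Finset.sum_congr rfl fun t _ => ?_
      rw [vm_add ha hb, vm_sub hb hb', vm_sub hb' ha, hA t]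
      ring
    rw [e, h1, h2, h3]
    rw [add_comm b a] at hp
    have hp' : ((nrm (a + b) : ℕ) : ℤ) + nrm (b - a) = 2 * nrm b + 2 * nrm a := by exact_mod_cast hp
    linarith
  have key2 : nrm (b - b') = 0 := by exact_mod_cast key
  have := nrm_eq_zero key2
  exact (sub_eq_zero.1 this).symm

end Pool.Agent.Y330.FP
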