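import Pool.Agent.H372R3.PM4
import Pool.Agent.Y330.FP.A1

/-! The graph of parallelograms with prescribed distances. -/

set_option autoImplicit false

namespace Pool.Agent.Y330.FP

open Finset Pool.Agent.H372R3

variable {d M : ℕ}

theorem comp_exists [NeZero M] {x y z : Fin d → ZMod M} {α β γ δ : ℕ} (h1 : nrm (y - x) = α)
    (h2 : nrm (z - y) = β) (h3 : nrm (z - x) = γ) (hd : γ + δ = 2 * α + 2 * β)
    (ha : 16 * α < M ^ 2) (hb : 16 * β < M ^ 2) :
    nrm ((x + z - y) - x) = β ∧ nrm ((x + z - y) - z) = α ∧ nrm ((x + z - y) - y) = δ := by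
  refine ⟨?_, ?_, ?_⟩
  · rw [show x + z - y - x = z - y by abel]; exact h2
  · rw [show x + z - y - z = -(y - x) by abel, nrm_neg]; exact h1
  · have sx : Sh (y - x) := by unfold Sh; rw [h1]; exact ha
    have sz : Sh (z - y) := by unfold Sh; rw [h2]; exact hb
    have := par_law sz sx
    rw [show z - y + (y - x) = z - x by abel, h1, h2, h3] at this
    rw [show x + z - y - y = (z - y) - (y - x) by abel]
    omega

theorem comp_unique [NeZero M] {x y z v : Fin d → ZMod M} {α β γ δ : ℕ} (h1 : nrm (y - x) = α)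
    (h2 : nrm (z - y) = β) (h3 : nrm (z - x) = γ) (hd : γ + δ = 2 * α + 2 * β)
    (ha : 16 * α < M ^ 2) (hb : 16 * β < M ^ 2)
    (k1 : nrm (v - x) = β) (k2 : nrm (v - z) = α) (k3 : nrm (v - y) = δ) : v = x + z - y := by
  have e := comp_exists h1 h2 h3 hd ha hb
  have s1 : Sh (y - x) := by unfold Sh; rw [h1]; exact ha
  have s2 : Sh (z - y) := by unfold Sh; rw [h2]; exact hb
  have s3 : Sh (z - v) := by unfold Sh; rw [nrm_sub_comm, k2]; exact ha
  have s4 : Sh (v - x) := by unfold Sh; rw [k1]; exact hb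
  have := par_unique (a := y - x) (b := z - y) (a' := z - v) (b' := v - x) s1 s2 s3 s4 (by abel)
    (by rw [nrm_sub_comm, k2, h1]) (by rw [k1, h2])
    (by rw [show v - x - (y - x) = v - y by abel, k3,
          show z - y - (y - x) = x + z - y - y by abel, e.2.2])
  have h5 : v = x + (v - x) := by abel
  rw [h5, this]; abel

/-- the squared distances of a parallelogram `0, 1, 2, 3` -/
def rr (s t u w : ℕ) : Fin 4 → Fin 4 → ℕ :=
  ![![0, s, u, t], ![s, 0, t, w], ![u, t, 0, s], ![t, w, s, 0]]

theorem rr_symm (s t u w : ℕ) (i j : Fin 4) : rr s t u w i j = rr s t u w j i := by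
  fin_cases i <;> fin_cases j <;> rfl

/-- parallelograms -/
def IsCh (s t u w : ℕ) (p : Fin 4 → (Fin d → ZMod M)) : Prop :=
  ∀ i j, i ≠ j → nrm (p j - p i) = rr s t u w i j

/-- the data of a pattern -/
structure Pat (d M s t u w : ℕ) : Prop where
  hM : M ≠ 0
  hs : 16 * s < M ^ 2
  ht : 16 * t < M ^ 2
  par : u + w = 2 * s + 2 * t
  ex : ∃ a b : Fin d → ZMod M, nrm a = s ∧ nrm b = t ∧ nrm (a + b) = u

variable {s t u w : ℕ}

theorem completion [NeZero M] (hP : Pat d M s t u w) (l : Fin 4) (q : Fin 4 → (Fin d → ZMod M))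
    (hq : ∀ i j, i ≠ j → i ≠ l → j ≠ l → nrm (q j - q i) = rr s t u w i j) :
    ∃ v, ∀ v', (∀ i, i ≠ l → nrm (v' - q i) = rr s t u w i l) ↔ v' = v := by
  have h1 := hP.hs
  have h2 := hP.ht
  have h3 := hP.par
  fin_cases l
  · -- l = 0 : 1, 2, 3
    have a1 : nrm (q 2 - q 1) = t := hq 1 2 (by decide) (by decide) (by decide)
    have a2 : nrm (q 3 - q 2) = s := hq 2 3 (by decide) (by decide) (by decide)
    have a3 : nrm (q 3 - q 1) = w := hq 1 3 (by decide) (by decide) (by decide)
    refine ⟨q 1 + q 3 - q 2, fun v' => ⟨fun h => ?_, ?_⟩⟩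
    · have b1 : nrm (v' - q 1) = s := h 1 (by decide)
      have b2 : nrm (v' - q 2) = u := h 2 (by decide)
      have b3 : nrm (v' - q 3) = t := h 3 (by decide)
      exact comp_unique a1 a2 a3 (by omega) h2 h1 b1 b3 b2
    · rintro rfl
      obtain ⟨c1, c2, c3⟩ := comp_exists a1 a2 a3 (δ := u) (by omega) h2 h1
      intro i hi
      fin_cases i
      · exact absurd rfl hi
      · exact c1
      · exact c3
      · exact c2
  · -- l = 1 : 2, 3, 0
    have a1 : nrm (q 3 - q 2) = s := hq 2 3 (by decide) (by decide) (by decide)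
    have a2 : nrm (q 0 - q 3) = t := hq 3 0 (by decide) (by decide) (by decide)
    have a3 : nrm (q 0 - q 2) = u := hq 2 0 (by decide) (by decide) (by decide)
    refine ⟨q 2 + q 0 - q 3, fun v' => ⟨fun h => ?_, ?_⟩⟩
    · have b1 : nrm (v' - q 0) = s := h 0 (by decide)
      have b2 : nrm (v' - q 2) = t := h 2 (by decide)
      have b3 : nrm (v' - q 3) = w := h 3 (by decide)
      exact comp_unique a1 a2 a3 (by omega) h1 h2 b2 b1 b3
    · rintro rfl
      obtain ⟨c1, c2, c3⟩ := comp_exists a1 a2 a3 (δ := w) (by omega) h1 h2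
      intro i hi
      fin_cases i
      · exact c2
      · exact absurd rfl hi
      · exact c1
      · exact c3
  · -- l = 2 : 3, 0, 1
    have a1 : nrm (q 0 - q 3) = t := hq 3 0 (by decide) (by decide) (by decide)
    have a2 : nrm (q 1 - q 0) = s := hq 0 1 (by decide) (by decide) (by decide)
    have a3 : nrm (q 1 - q 3) = w := hq 3 1 (by decide) (by decide) (by decide)
    refine ⟨q 3 + q 1 - q 0, fun v' => ⟨fun h => ?_, ?_⟩⟩
    · have b1 : nrm (v' - q 0) = u := h 0 (by decide)
      have b2 : nrm (v' - q 1) = t := h 1 (by decide)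
      have b3 : nrm (v' - q 3) = s := h 3 (by decide)
      exact comp_unique a1 a2 a3 (by omega) h2 h1 b3 b2 b1
    · rintro rfl
      obtain ⟨c1, c2, c3⟩ := comp_exists a1 a2 a3 (δ := u) (by omega) h2 h1
      intro i hi
      fin_cases i
      · exact c3
      · exact c2
      · exact absurd rfl hi
      · exact c1
  · -- l = 3 : 0, 1, 2
    have a1 : nrm (q 1 - q 0) = s := hq 0 1 (by decide) (by decide) (by decide)
    have a2 : nrm (q 2 - q 1) = t := hq 1 2 (by decide) (by decide) (by decide)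
    have a3 : nrm (q 2 - q 0) = u := hq 0 2 (by decide) (by decide) (by decide)
    refine ⟨q 0 + q 2 - q 1, fun v' => ⟨fun h => ?_, ?_⟩⟩
    · have b1 : nrm (v' - q 0) = t := h 0 (by decide)
      have b2 : nrm (v' - q 1) = w := h 1 (by decide)
      have b3 : nrm (v' - q 2) = s := h 2 (by decide)
      exact comp_unique a1 a2 a3 (by omega) h1 h2 b1 b3 b2
    · rintro rfl
      obtain ⟨c1, c2, c3⟩ := comp_exists a1 a2 a3 (δ := w) (by omega) h1 h2
      intro i hi
      fin_cases i
      · exact c1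
      · exact c3
      · exact c2
      · exact absurd rfl hi

/-- the parallelogram with vertex `v` and sides `a, b` -/
def chOf (v a b : Fin d → ZMod M) : Fin 4 → (Fin d → ZMod M) := ![v, v + a, v + a + b, v + b]

theorem isCh_chOf [NeZero M] (hP : Pat d M s t u w) {v a b : Fin d → ZMod M} (ha : nrm a = s)
    (hb : nrm b = t) (hab : nrm (a + b) = u) : IsCh s t u w (chOf v a b) := by
  have h1 := hP.hs
  have h2 := hP.ht
  have h3 := hP.par
  have sa : Sh a := by unfold Sh; rw [ha]; exact h1
  have sb : Sh b := by unfold Sh; rw [hb]; exact h2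
  have hw : nrm (b - a) = w := by
    have := par_law sb sa
    rw [add_comm b a, ha, hb, hab] at this
    omega
  have hlt : ∀ i j : Fin 4, i < j → nrm (chOf v a b j - chOf v a b i) = rr s t u w i j := by
    intro i j hij
    fin_cases i <;> fin_cases j <;> first | exact absurd hij (by decide) | skip
    · show nrm (v + a - v) = s
      rw [show v + a - v = a by abel]; exact ha
    · show nrm (v + a + b - v) = u
      rw [show v + a + b - v = a + b by abel]; exact hab
    · show nrm (v + b - v) = t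
      rw [show v + b - v = b by abel]; exact hb
    · show nrm (v + a + b - (v + a)) = t
      rw [show v + a + b - (v + a) = b by abel]; exact hb
    · show nrm (v + b - (v + a)) = w
      rw [show v + b - (v + a) = b - a by abel]; exact hw
    · show nrm (v + b - (v + a + b)) = s
      rw [show v + b - (v + a + b) = -a by abel, nrm_neg]; exact ha
  intro i j hij
  rcases lt_or_gt_of_ne hij with h | h
  · exact hlt i j h
  · rw [nrm_sub_comm, rr_symm]; exact hlt j i h

/-- the graph -/
def pg (d M s t u w : ℕ) : SimpleGraph (Fin 4 × (Fin d → ZMod M) × Bool) where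
  Adj v w' := v.1 ≠ w'.1 ∧ ∃ p : Fin 4 → (Fin d → ZMod M), IsCh s t u w p ∧ p v.1 = v.2.1 ∧
    p w'.1 = w'.2.1
  symm := ⟨fun v w' h => ⟨h.1.symm, h.2.imp fun p hp => ⟨hp.1, hp.2.2, hp.2.1⟩⟩⟩
  loopless := ⟨fun v h => h.1 rfl⟩

theorem exists_ch [NeZero M] (hP : Pat d M s t u w) (i : Fin 4) (c : Fin d → ZMod M) :
    ∃ p, IsCh s t u w p ∧ p i = c := by
  obtain ⟨a, b, ha, hb, hab⟩ := hP.ex
  have h0 := isCh_chOf hP (v := 0) ha hb hab
  refine ⟨fun j => chOf 0 a b j + (c - chOf 0 a b i), ?_, by simp⟩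
  intro j k hjk
  have := h0 j k hjk
  show nrm ((chOf 0 a b k + (c - chOf 0 a b i)) - (chOf 0 a b j + (c - chOf 0 a b i))) = _
  rw [add_sub_add_right_eq_sub]
  exact this

theorem pg_PM [NeZero M] (hP : Pat d M s t u w) : PM 4 (pg d M s t u w) := by
  have injrow : ∀ S : Finset (Fin 4 × (Fin d → ZMod M) × Bool),
      (pg d M s t u w).IsClique (S : Set _) →
      Set.InjOn (fun v => v.1) (S : Set (Fin 4 × (Fin d → ZMod M) × Bool)) := by
    intro S hS v hv w' hw h
    by_contra hne
    exact (hS hv hw hne).1 h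
  have ins : ∀ (S : Finset (Fin 4 × (Fin d → ZMod M) × Bool)) (x : Fin 4 × (Fin d → ZMod M) × Bool),
      (pg d M s t u w).IsClique (S : Set _) →
      ((x ∉ S ∧ (pg d M s t u w).IsClique ((insert x S : Finset _) : Set _)) ↔
        ∀ y ∈ S, (pg d M s t u w).Adj x y) := by
    intro S x hS
    constructor
    · rintro ⟨hx, hcl⟩ y hy
      exact hcl (by simp) (by simp [hy]) (fun h => hx (h ▸ hy))
    · intro h
      have hx : x ∉ S := fun hx => (h x hx).1 rfl
      refine ⟨hx, ?_⟩
      rw [Finset.coe_insert, SimpleGraph.isClique_insert]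
      exact ⟨hS, fun y hy _ => h y (by exact_mod_cast hy)⟩
  have three : ∀ S : Finset (Fin 4 × (Fin d → ZMod M) × Bool),
      (pg d M s t u w).IsClique (S : Set _) → S.card + 1 = 4 →
      ∃ (l : Fin 4) (v : Fin d → ZMod M), ∀ x, (∀ y ∈ S, (pg d M s t u w).Adj x y) ↔
        (x.1 = l ∧ x.2.1 = v) := by
    intro S hS hc
    obtain ⟨l, hl⟩ := unique_notMem_image S (fun v => v.1) (injrow S hS) hc
    have hex : ∀ i, ∃ c : Fin d → ZMod M, i ≠ l → ∃ b, (i, c, b) ∈ S := by
      intro i
      by_cases h : i = l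
      · exact ⟨0, fun h2 => absurd h h2⟩
      · have : i ∈ S.image (fun v => v.1) := by
          by_contra hcon
          exact h ((hl i).1 hcon)
        obtain ⟨⟨i', c, b⟩, hy, rfl⟩ := Finset.mem_image.1 this
        exact ⟨c, fun _ => ⟨b, hy⟩⟩
    choose q hq using hex
    have hmem : ∀ y ∈ S, y.1 ≠ l ∧ q y.1 = y.2.1 := by
      intro y hy
      have h1 : y.1 ≠ l := by
        intro h
        exact ((hl y.1).2 h) (Finset.mem_image_of_mem _ hy)
      refine ⟨h1, ?_⟩
      obtain ⟨b, hb⟩ := hq y.1 h1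
      have := injrow S hS hb hy rfl
      rw [← this]
    have hqd : ∀ i j, i ≠ j → i ≠ l → j ≠ l → nrm (q j - q i) = rr s t u w i j := by
      intro i j hij hi hj
      obtain ⟨b, hb⟩ := hq i hi
      obtain ⟨b', hb'⟩ := hq j hj
      obtain ⟨-, p, hp, h1, h2⟩ := hS hb hb' (by
        intro h
        exact hij (congrArg Prod.fst h))
      have := hp i j hij
      rw [← this]
      simp only at h1 h2
      rw [h1, h2]
    obtain ⟨v, hv⟩ := completion hP l q hqd
    refine ⟨l, v, fun x => ⟨fun h => ?_, ?_⟩⟩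
    · have hxl : x.1 = l := by
        rw [← hl x.1]
        intro hcon
        obtain ⟨y, hy, hyx⟩ := Finset.mem_image.1 hcon
        exact (h y hy).1 hyx.symm
      refine ⟨hxl, (hv _).1 fun i hi => ?_⟩
      obtain ⟨b, hb⟩ := hq i hi
      obtain ⟨-, p, hp, h1, h2⟩ := h _ hb
      simp only at h1 h2
      have := hp i x.1 (by rw [hxl]; exact hi)
      rw [h1, h2, hxl] at this
      exact this
    · rintro ⟨h1, h2⟩ y hy
      obtain ⟨hy1, hy2⟩ := hmem y hy
      have hvv := (hv v).2 rfl
      refine ⟨by rw [h1]; exact hy1.symm, Function.update q l v, ?_, ?_, ?_⟩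
      · intro i j hij
        by_cases hi : i = l
        · subst hi
          have hj : j ≠ i := hij.symm
          rw [Function.update_self, Function.update_of_ne hj, nrm_sub_comm, rr_symm]
          exact hvv j hj
        · by_cases hj : j = l
          · subst hj
            rw [Function.update_self, Function.update_of_ne hi]
            exact hvv i hi
          · rw [Function.update_of_ne hi, Function.update_of_ne hj]
            exact hqd i j hij hi hj
      · rw [h1, Function.update_self, h2]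
      · rw [Function.update_of_ne hy1, hy2]
  refine ⟨?_, ?_, ?_⟩
  · intro S hS hc
    have hc4 : S.card = 0 ∨ S.card = 1 ∨ S.card = 2 ∨ S.card + 1 = 4 := by omega
    rcases hc4 with h | h | h | h
    · rw [Finset.card_eq_zero] at h
      subst h
      exact ⟨(0, 0, true), by simp, by simp⟩
    · obtain ⟨y, rfl⟩ := Finset.card_eq_one.1 h
      obtain ⟨p, hp, hpy⟩ := exists_ch hP y.1 y.2.1
      refine ⟨(y.1 + 1, p (y.1 + 1), true), (ins _ _ hS).2 ?_⟩
      intro z hz
      rw [Finset.mem_singleton] at hz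
      subst hz
      refine ⟨?_, p, hp, rfl, hpy⟩
      show z.1 + 1 ≠ z.1
      generalize z.1 = k
      revert k; decide
    · obtain ⟨y, z, hyz, rfl⟩ := Finset.card_eq_two.1 h
      obtain ⟨h1, p, hp, hpy, hpz⟩ := hS (x := y) (by simp) (y := z) (by simp) hyz
      obtain ⟨l, hl1, hl2⟩ : ∃ l : Fin 4, l ≠ y.1 ∧ l ≠ z.1 := by
        generalize y.1 = k; generalize z.1 = k'
        revert k k'; decide
      refine ⟨(l, p l, true), (ins _ _ hS).2 ?_⟩
      intro x hx
      rw [Finset.mem_insert, Finset.mem_singleton] at hx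
      rcases hx with rfl | rfl
      · exact ⟨hl1, p, hp, rfl, hpy⟩
      · exact ⟨hl2, p, hp, rfl, hpz⟩
    · obtain ⟨l, v, hv⟩ := three S hS h
      exact ⟨(l, v, true), (ins _ _ hS).2 ((hv _).2 ⟨rfl, rfl⟩)⟩
  · intro S hS
    have := Finset.card_le_univ (S.image (fun v => v.1))
    rw [Finset.card_image_of_injOn (injrow S hS)] at this
    simpa using this
  · intro S hS hc
    obtain ⟨l, v, hv⟩ := three S hS hc
    refine ⟨(l, v, true), (l, v, false), by simp, ?_⟩
    rintro ⟨j, c, b⟩
    rw [ins _ _ hS, hv]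
    simp only [Prod.mk.injEq]
    constructor
    · rintro ⟨h1, h2⟩
      rcases b with _ | _
      · exact Or.inr ⟨h1, h2, rfl⟩
      · exact Or.inl ⟨h1, h2, rfl⟩
    · rintro (⟨h1, h2, -⟩ | ⟨h1, h2, -⟩)
      · exact ⟨h1, h2⟩
      · exact ⟨h1, h2⟩

end Pool.Agent.Y330.FP
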