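import Pool.Agent.Y330.FP.A2

/-! Counting facets. -/

set_option autoImplicit false

namespace Pool.Agent.Y330.FP

open Finset Pool.Agent.H372R3

/-- number of cliques with `D` vertices -/
noncomputable def fac {V : Type*} (D : ℕ) (G : SimpleGraph V) : ℕ :=
  Set.ncard {S : Finset V | G.IsClique (S : Set V) ∧ S.card = D}

theorem faceNum_cliqueCx {V : Type*} (G : SimpleGraph V) (i : ℕ) :
    faceNum (cliqueCx G) i = fac (i + 1) G := by
  unfold faceNum fac
  congr 1
  ext S
  simp only [Set.mem_setOf_eq, mem_cliqueCx]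
  constructor
  · rintro ⟨⟨-, h⟩, h2⟩
    exact ⟨h, h2⟩
  · rintro ⟨h, h2⟩
    exact ⟨⟨Finset.card_pos.1 (by omega), h⟩, h2⟩

theorem fac_sum {V W : Type*} [Fintype V] [Fintype W] (D : ℕ) (G : SimpleGraph V)
    (H : SimpleGraph W) : fac D G ≤ fac D (G ⊕g H) := by
  classical
  unfold fac
  refine Set.ncard_le_ncard_of_injOn (fun S : Finset V => S.map Function.Embedding.inl) ?_ ?_
    (Set.toFinite _)
  · rintro S ⟨hS, hc⟩
    refine ⟨?_, by rw [Finset.card_map]; exact hc⟩
    intro x hx y hy hxy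
    simp only [Finset.coe_map, Function.Embedding.inl_apply, Set.mem_image] at hx hy
    obtain ⟨x, hx, rfl⟩ := hx
    obtain ⟨y, hy, rfl⟩ := hy
    simpa using hS hx hy (by simpa using hxy)
  · intro S _ S' _ h
    exact Finset.map_injective _ h

theorem fac_join {V W : Type*} [Fintype V] [Fintype W] (D E : ℕ) (G : SimpleGraph V)
    (H : SimpleGraph W) : fac D G * fac E H ≤ fac (D + E) (joinG G H) := by
  classical
  unfold fac
  rw [← Set.ncard_prod]
  refine Set.ncard_le_ncard_of_injOn (fun p : Finset V × Finset W => p.1.disjSum p.2) ?_ ?_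
    (Set.toFinite _)
  · rintro ⟨S, T⟩ ⟨⟨hS, hc⟩, ⟨hT, hc'⟩⟩
    refine ⟨?_, by rw [Finset.card_disjSum]; simp only at hc hc'; rw [hc, hc']⟩
    rw [joinG_clique]
    simp only [Finset.toLeft_disjSum, Finset.toRight_disjSum]
    exact ⟨hS, hT⟩
  · rintro ⟨S, T⟩ _ ⟨S', T'⟩ _ h
    have h1 := congrArg Finset.toLeft h
    have h2 := congrArg Finset.toRight h
    simp only [Finset.toLeft_disjSum, Finset.toRight_disjSum] at h1 h2
    rw [h1, h2]

theorem fac_cyc {r : ℕ} [NeZero r] (hr : 4 ≤ r) : r ≤ fac 2 (cyc r) := by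
  classical
  have n1 : (1 : ZMod r) ≠ 0 := by simpa using zmod_natCast_ne (r := r) 1 (by norm_num) (by omega)
  have n2 : (2 : ZMod r) ≠ 0 := by simpa using zmod_natCast_ne (r := r) 2 (by norm_num) (by omega)
  have hc : Set.ncard (Set.univ : Set (ZMod r)) = r := by
    rw [Set.ncard_univ, Nat.card_eq_fintype_card, ZMod.card]
  conv_lhs => rw [← hc]
  unfold fac
  refine Set.ncard_le_ncard_of_injOn (fun x : ZMod r => ({x, x + 1} : Finset (ZMod r))) ?_ ?_
    (Set.toFinite _)
  · intro x _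
    have hne : x ≠ x + 1 := by
      intro h
      exact n1 (by linear_combination -h)
    refine ⟨?_, Finset.card_pair hne⟩
    rw [Finset.coe_insert, SimpleGraph.isClique_insert]
    refine ⟨by simp, ?_⟩
    intro y hy _
    rw [Finset.coe_singleton, Set.mem_singleton_iff] at hy
    subst hy
    exact ⟨hne, Or.inl rfl⟩
  · intro x _ y _ h
    simp only at h
    have h1 : x ∈ ({y, y + 1} : Finset (ZMod r)) := h ▸ Finset.mem_insert_self _ _
    have h2 : x + 1 ∈ ({y, y + 1} : Finset (ZMod r)) := h ▸ (by simp)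
    simp only [Finset.mem_insert, Finset.mem_singleton] at h1 h2
    rcases h1 with h1 | h1
    · exact h1
    · exfalso
      rcases h2 with h2 | h2
      · exact n2 (by linear_combination h2 - h1)
      · exact n1 (by linear_combination h2 - h1)

/-- vectors of the box -/
def bx (d q M : ℕ) (a : Fin d → Fin q) : Fin d → ZMod M := fun t => ((a t : ℕ) : ZMod M)

theorem bx_coord {d q M : ℕ} [NeZero M] (h : 2 * q ≤ M) (a : Fin d → Fin q) (t : Fin d) :
    (bx d q M a t).valMinAbs = ((a t : ℕ) : ℤ) := by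
  unfold bx
  apply ZMod.valMinAbs_natCast_of_le_half
  have := (a t).2
  omega

theorem bx_inj {d q M : ℕ} [NeZero M] (h : 2 * q ≤ M) : Function.Injective (bx d q M) := by
  intro a b hab
  funext t
  have h1 := bx_coord h a t
  rw [hab, bx_coord h b t] at h1
  exact Fin.ext (by exact_mod_cast h1.symm)

theorem nrm_bx {d q M : ℕ} [NeZero M] (h : 2 * q ≤ M) (a : Fin d → Fin q) :
    nrm (bx d q M a) ≤ d * q ^ 2 := by
  unfold nrm
  calc ∑ t, ((bx d q M a t).valMinAbs.natAbs) ^ 2 ≤ ∑ _t : Fin d, q ^ 2 := by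
        refine Finset.sum_le_sum fun t _ => ?_
        rw [bx_coord h a t, Int.natAbs_natCast]
        exact Nat.pow_le_pow_left (a t).2.le 2
    _ = d * q ^ 2 := by simp

/-- the pairs of vectors of the box with a given pattern -/
def prs (d q M s t u : ℕ) : Finset ((Fin d → Fin q) × (Fin d → Fin q)) :=
  univ.filter fun ab => (nrm (bx d q M ab.1), nrm (bx d q M ab.2), nrm (bx d q M ab.1 + bx d q M ab.2))
    = (s, t, u)

theorem fac_pg {d q M s t u w : ℕ} [NeZero M] (hP : Pat d M s t u w) (hq : 2 * q ≤ M) :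
    16 * M ^ d * (prs d q M s t u).card ≤ fac 4 (pg d M s t u w) := by
  classical
  have hc : Set.ncard ((Set.univ : Set (Fin d → ZMod M)) ×ˢ
      (((prs d q M s t u : Finset _) : Set ((Fin d → Fin q) × (Fin d → Fin q))) ×ˢ
        (Set.univ : Set (Fin 4 → Bool)))) = 16 * M ^ d * (prs d q M s t u).card := by
    rw [Set.ncard_prod, Set.ncard_prod, Set.ncard_univ, Set.ncard_univ, Set.ncard_coe_finset,
      Nat.card_eq_fintype_card, Nat.card_eq_fintype_card, Fintype.card_fun, Fintype.card_fun,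
      ZMod.card, Fintype.card_bool, Fintype.card_fin, Fintype.card_fin]
    ring
  rw [← hc]
  unfold fac
  refine Set.ncard_le_ncard_of_injOn (fun x : (Fin d → ZMod M) ×
    (((Fin d → Fin q) × (Fin d → Fin q)) × (Fin 4 → Bool)) =>
      (univ : Finset (Fin 4)).image (fun i : Fin 4 =>
        ((i, chOf x.1 (bx d q M x.2.1.1) (bx d q M x.2.1.2) i, x.2.2 i) :
          Fin 4 × (Fin d → ZMod M) × Bool))) ?_ ?_ (Set.toFinite _)
  · rintro ⟨v, ⟨a, b⟩, σ⟩ ⟨-, hab, -⟩
    simp only [prs, Finset.coe_filter, Finset.mem_univ, true_and, Set.mem_setOf_eq,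
      Prod.mk.injEq] at hab
    obtain ⟨h1, h2, h3⟩ := hab
    have hch := isCh_chOf hP (v := v) h1 h2 h3
    refine ⟨?_, ?_⟩
    · intro x hx y hy hxy
      simp only [Finset.coe_image, Finset.coe_univ, Set.image_univ, Set.mem_range] at hx hy
      obtain ⟨i, rfl⟩ := hx
      obtain ⟨j, rfl⟩ := hy
      refine ⟨?_, _, hch, rfl, rfl⟩
      intro hij
      simp only at hij
      subst hij
      exact hxy rfl
    · rw [Finset.card_image_of_injective _ (fun i j hij => congrArg Prod.fst hij)]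
      simp
  · rintro ⟨v, ⟨a, b⟩, σ⟩ _ ⟨v', ⟨a', b'⟩, σ'⟩ _ h
    simp only at h
    have key : ∀ i, chOf v (bx d q M a) (bx d q M b) i = chOf v' (bx d q M a') (bx d q M b') i ∧
        σ i = σ' i := by
      intro i
      have hm : ((i, chOf v (bx d q M a) (bx d q M b) i, σ i) : Fin 4 × (Fin d → ZMod M) × Bool) ∈
          (univ : Finset (Fin 4)).image (fun i : Fin 4 =>
            ((i, chOf v' (bx d q M a') (bx d q M b') i, σ' i) :
              Fin 4 × (Fin d → ZMod M) × Bool)) := by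
        rw [← h]
        exact Finset.mem_image_of_mem _ (Finset.mem_univ i)
      obtain ⟨j, -, hj⟩ := Finset.mem_image.1 hm
      simp only [Prod.mk.injEq] at hj
      obtain ⟨rfl, h2, h3⟩ := hj
      exact ⟨h2.symm, h3.symm⟩
    have hσ : σ = σ' := funext fun i => (key i).2
    have h0 : v = v' := (key 0).1
    have h1 : v + bx d q M a = v' + bx d q M a' := (key 1).1
    have h3 : v + bx d q M b = v' + bx d q M b' := (key 3).1
    subst h0
    have ha : a = a' := bx_inj hq (add_left_cancel h1)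
    have hb : b = b' := bx_inj hq (add_left_cancel h3)
    rw [ha, hb, hσ]

/-- the pigeonhole principle: a popular pattern -/
theorem exists_pat {d q : ℕ} (hd : 1 ≤ d) (hq : 1 ≤ q) :
    ∃ s t u w : ℕ, Pat d (9 * d * q) s t u w ∧
      ((q : ℝ) ^ (2 * d)) / (5 * d * q ^ 2 : ℝ) ^ 3 ≤ ((prs d q (9 * d * q) s t u).card : ℝ) := by
  classical
  have hM0 : 9 * d * q ≠ 0 := by positivity
  have : NeZero (9 * d * q) := ⟨hM0⟩
  have hq2 : 2 * q ≤ 9 * d * q := by nlinarith
  obtain ⟨R, hR⟩ : ∃ R, R = 4 * d * q ^ 2 := ⟨_, rfl⟩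
  have hRM : 16 * R < (9 * d * q) ^ 2 := by
    rw [hR]
    have : 0 < d * q ^ 2 := by positivity
    nlinarith [Nat.mul_le_mul_right (d * q ^ 2) hd]
  have hs1 : ∀ a : Fin d → Fin q, nrm (bx d q (9 * d * q) a) ≤ d * q ^ 2 := fun a => nrm_bx hq2 a
  have hsh : ∀ a : Fin d → Fin q, Sh (bx d q (9 * d * q) a) := by
    intro a
    have := hs1 a
    unfold Sh
    have h2 : d * q ^ 2 ≤ R := by rw [hR]; nlinarith
    omega
  have hs2 : ∀ a b : Fin d → Fin q,
      nrm (bx d q (9 * d * q) a + bx d q (9 * d * q) b) ≤ R := by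
    intro a b
    have h1 := par_law (hsh a) (hsh b)
    have h2 := hs1 a
    have h3 := hs1 b
    have h4 : R = 4 * (d * q ^ 2) := by rw [hR]; ring
    omega
  let f : (Fin d → Fin q) × (Fin d → Fin q) → ℕ × ℕ × ℕ := fun ab =>
    (nrm (bx d q (9 * d * q) ab.1), nrm (bx d q (9 * d * q) ab.2),
      nrm (bx d q (9 * d * q) ab.1 + bx d q (9 * d * q) ab.2))
  let Tg : Finset (ℕ × ℕ × ℕ) := (range (R + 1)) ×ˢ ((range (R + 1)) ×ˢ (range (R + 1)))
  have hmap : ∀ x ∈ (univ : Finset ((Fin d → Fin q) × (Fin d → Fin q))), f x ∈ Tg := by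
    rintro ⟨a, b⟩ -
    have h1 := hs1 a
    have h2 := hs1 b
    have h3 := hs2 a b
    have h4 : R = 4 * (d * q ^ 2) := by rw [hR]; ring
    simp only [f, Tg, Finset.mem_product, Finset.mem_range]
    omega
  have hTg : Tg.Nonempty := ⟨(0, 0, 0), by simp [Tg]⟩
  have hcard : (Tg.card : ℝ) * (((q : ℝ) ^ (2 * d)) / ((R : ℝ) + 1) ^ 3) ≤
      ((univ : Finset ((Fin d → Fin q) × (Fin d → Fin q))).card : ℝ) := by
    have e1 : (Tg.card : ℝ) = ((R : ℝ) + 1) ^ 3 := by
      simp only [Tg, Finset.card_product, Finset.card_range]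
      push_cast
      ring
    have e2 : ((univ : Finset ((Fin d → Fin q) × (Fin d → Fin q))).card : ℝ) = (q : ℝ) ^ (2 * d) := by
      rw [Finset.card_univ, Fintype.card_prod, Fintype.card_fun, Fintype.card_fin, Fintype.card_fin]
      push_cast
      ring
    rw [e1, e2]
    have hR0 : ((R : ℝ) + 1) ^ 3 ≠ 0 := by positivity
    exact le_of_eq (by field_simp)
  have hcard' : Tg.card • (((q : ℝ) ^ (2 * d)) / ((R : ℝ) + 1) ^ 3) ≤
      ((univ : Finset ((Fin d → Fin q) × (Fin d → Fin q))).card : ℝ) := by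
    rw [nsmul_eq_mul]; exact hcard
  obtain ⟨⟨s, t, u⟩, -, hy⟩ :=
    Finset.exists_le_card_fiber_of_nsmul_le_card_of_maps_to hmap hTg hcard'
  have hprs : (prs d q (9 * d * q) s t u) = univ.filter (fun x => f x = (s, t, u)) := rfl
  have hpos : 0 < ((q : ℝ) ^ (2 * d)) / ((R : ℝ) + 1) ^ 3 := by
    have : (0 : ℝ) < q := by exact_mod_cast hq
    positivity
  have hne : (prs d q (9 * d * q) s t u).Nonempty := by
    rw [← Finset.card_pos]
    have := lt_of_lt_of_le hpos hy
    rw [hprs]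
    exact_mod_cast this
  obtain ⟨⟨a, b⟩, hab⟩ := hne
  simp only [prs, Finset.mem_filter, Finset.mem_univ, true_and, Prod.mk.injEq] at hab
  obtain ⟨h1, h2, h3⟩ := hab
  have hp := par_law (hsh b) (hsh a)
  have h3' : nrm (bx d q (9 * d * q) b + bx d q (9 * d * q) a) = u := by
    rw [add_comm]; exact h3
  rw [h3', h1, h2] at hp
  refine ⟨s, t, u, nrm (bx d q (9 * d * q) b - bx d q (9 * d * q) a), ⟨hM0, ?_, ?_, ?_, ?_⟩, ?_⟩
  · rw [← h1]; exact hsh a
  · rw [← h2]; exact hsh b
  · omega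
  · exact ⟨_, _, h1, h2, h3⟩
  · rw [hprs]
    refine le_trans ?_ hy
    have hq0 : (0 : ℝ) < q := by exact_mod_cast hq
    have hd0 : (0 : ℝ) < d := by exact_mod_cast hd
    apply div_le_div_of_nonneg_left (by positivity) (by positivity)
    apply pow_le_pow_left₀ (by positivity)
    have h5 : (R : ℝ) = 4 * d * q ^ 2 := by rw [hR]; push_cast; ring
    rw [h5]
    have h6 : (1 : ℝ) ≤ d * q ^ 2 := by
      have : 1 ≤ d * q ^ 2 := by
        have : 0 < d * q ^ 2 := by positivity
        omega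
      exact_mod_cast this
    linarith

end Pool.Agent.Y330.FP
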