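import Pool.Agent.Y330.FP.A3

/-! Exponents of the numbers of facets. -/

set_option autoImplicit false

namespace Pool.Agent.Y330.FP

open Finset Pool.Agent.H372R3 Filter

/-- on every large number of vertices there is a graph pseudomanifold with `n ^ (e - ε)` facets -/
def Big (D : ℕ) (e : ℝ) : Prop :=
  ∀ ε : ℝ, 0 < ε → ∃ n₀ : ℕ, ∀ n ≥ n₀, ∃ (V : Type) (_ : Fintype V) (_ : DecidableEq V)
    (_ : Nonempty V) (G : SimpleGraph V), Fintype.card V = n ∧ PM D G ∧
      (n : ℝ) ^ (e - ε) ≤ (fac D G : ℝ)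

theorem big_cyc : Big 2 1 := by
  intro ε hε
  refine ⟨4, fun n hn => ?_⟩
  have : NeZero n := ⟨by omega⟩
  refine ⟨ZMod n, inferInstance, inferInstance, inferInstance, cyc n, ZMod.card n, cyc_PM hn, ?_⟩
  have h1 : (n : ℝ) ≤ (fac 2 (cyc n) : ℝ) := by exact_mod_cast fac_cyc hn
  have hn1 : (1 : ℝ) ≤ n := by
    have : 1 ≤ n := by omega
    exact_mod_cast this
  refine le_trans ?_ h1
  calc (n : ℝ) ^ ((1 : ℝ) - ε) ≤ (n : ℝ) ^ (1 : ℝ) :=
        Real.rpow_le_rpow_of_exponent_le hn1 (by linarith)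
    _ = n := Real.rpow_one _

/-- for large `n` the power `n ^ δ` exceeds a constant -/
theorem ev_big (δ C : ℝ) (hδ : 0 < δ) : ∃ n₀ : ℕ, ∀ n : ℕ, n ≥ n₀ → C ≤ (n : ℝ) ^ δ := by
  have h := ((tendsto_rpow_atTop hδ).comp tendsto_natCast_atTop_atTop).eventually_ge_atTop C
  obtain ⟨n₀, hn⟩ := Filter.eventually_atTop.1 h
  exact ⟨n₀, fun n h => hn n h⟩

theorem big_four : Big 4 3 := by
  intro ε hε
  obtain ⟨d, hd⟩ : ∃ d : ℕ, 12 / ε < d := exists_nat_gt _
  have hd0 : (0 : ℝ) < d := lt_trans (by positivity) hd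
  have hd1 : 1 ≤ d := by
    have : 0 < d := by exact_mod_cast hd0
    omega
  have hde : 6 / (d : ℝ) ≤ ε / 2 := by
    rw [div_lt_iff₀ hε] at hd
    rw [div_le_iff₀ hd0]
    nlinarith
  obtain ⟨K, hK⟩ : ∃ K : ℝ, K = 16 * (18 * d) ^ d := ⟨_, rfl⟩
  have hK0 : 0 < K := by rw [hK]; positivity
  obtain ⟨n₁, hn₁⟩ := ev_big (ε / 2) (125 * d ^ 3 * K ^ 3) (by positivity)
  refine ⟨max n₁ (8 * (9 * d) ^ d + 8), fun n hn => ?_⟩
  have hnn1 : n ≥ n₁ := le_trans (le_max_left _ _) hn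
  have hnn2 : 8 * (9 * d) ^ d + 8 ≤ n := le_trans (le_max_right _ _) hn
  -- choose q
  obtain ⟨q, hq1, hqn, hqn'⟩ : ∃ q : ℕ, 1 ≤ q ∧ 8 * (9 * d * q) ^ d + 8 ≤ n ∧
      n < 8 * (9 * d * (q + 1)) ^ d + 8 := by
    have hP1 : 8 * (9 * d * 1) ^ d + 8 ≤ n := by rw [mul_one]; exact hnn2
    let q := Nat.findGreatest (fun q => 8 * (9 * d * q) ^ d + 8 ≤ n) n
    have h1 : 1 ≤ q := Nat.le_findGreatest (by omega) hP1
    have h2 : 8 * (9 * d * q) ^ d + 8 ≤ n :=
      Nat.findGreatest_spec (P := fun q => 8 * (9 * d * q) ^ d + 8 ≤ n) (by omega : 1 ≤ n) hP1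
    have hqlt : q + 1 ≤ n := by
      have h3 : q ≤ (9 * d * q) ^ d := by
        calc q ≤ 9 * d * q := Nat.le_mul_of_pos_left _ (by positivity)
          _ ≤ (9 * d * q) ^ d := Nat.le_self_pow (by omega) _
      omega
    have h4 : ¬ (8 * (9 * d * (q + 1)) ^ d + 8 ≤ n) :=
      Nat.findGreatest_is_greatest (P := fun q => 8 * (9 * d * q) ^ d + 8 ≤ n) (Nat.lt_succ_self _)
        hqlt
    exact ⟨q, h1, h2, by omega⟩
  obtain ⟨s, t, u, w, hP, hcard⟩ := exists_pat hd1 hq1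
  have hM0 : 9 * d * q ≠ 0 := by positivity
  have : NeZero (9 * d * q) := ⟨hM0⟩
  have hq2 : 2 * q ≤ 9 * d * q := by nlinarith
  have hfac := fac_pg hP hq2
  obtain ⟨r, hr⟩ : ∃ r, r = n - 8 * (9 * d * q) ^ d - 4 := ⟨_, rfl⟩
  have hr4 : 4 ≤ r := by omega
  have : NeZero r := ⟨by omega⟩
  have hH : PM 4 (joinG (cyc r) (board 2 0)) := (cyc_PM hr4).join (board_PM 2 0)
  have hG := (pg_PM hP).sum (by omega) hH
  refine ⟨_, inferInstance, _, inferInstance,
    pg d (9 * d * q) s t u w ⊕g joinG (cyc r) (board 2 0), ?_, hG, ?_⟩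
  · simp only [Fintype.card_sum, Fintype.card_prod, Fintype.card_fin, Fintype.card_pi,
      Finset.prod_const, Finset.card_univ, Fintype.card_bool, ZMod.card, pow_zero]
    omega
  · have h1 : (fac 4 (pg d (9 * d * q) s t u w) : ℝ) ≤
        (fac 4 (pg d (9 * d * q) s t u w ⊕g joinG (cyc r) (board 2 0)) : ℝ) := by
      have h0 := fac_sum 4 (pg d (9 * d * q) s t u w) (joinG (cyc r) (board 2 0))
      exact_mod_cast h0
    refine le_trans ?_ h1
    have h2 : (16 * ((9 * d * q : ℕ) : ℝ) ^ d * ((prs d q (9 * d * q) s t u).card : ℝ)) ≤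
        (fac 4 (pg d (9 * d * q) s t u w) : ℝ) := by exact_mod_cast hfac
    refine le_trans ?_ h2
    have hq0 : (0 : ℝ) < q := by exact_mod_cast hq1
    have hn0 : (0 : ℝ) < n := by
      have : 0 < n := by omega
      exact_mod_cast this
    -- lower bound of `q ^ d`
    have hx : (n : ℝ) ≤ K * (q : ℝ) ^ d := by
      have e1 : n ≤ 16 * (18 * d) ^ d * q ^ d := by
        have e2 : 9 * d * (q + 1) ≤ 18 * d * q := by nlinarith
        have e3 : (9 * d * (q + 1)) ^ d ≤ (18 * d * q) ^ d := Nat.pow_le_pow_left e2 d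
        have e4 : (18 * d * q) ^ d = (18 * d) ^ d * q ^ d := mul_pow _ _ _
        have e5 : 1 ≤ (18 * d * q) ^ d := Nat.one_le_pow _ _ (by positivity)
        nlinarith
      rw [hK]
      exact_mod_cast e1
    -- upper bound of `q ^ 6`
    have hq6 : (q : ℝ) ^ 6 ≤ (n : ℝ) ^ (ε / 2) := by
      have e1 : q ^ d ≤ n := by
        have e2 : q ^ d ≤ (9 * d * q) ^ d := Nat.pow_le_pow_left (by nlinarith) d
        omega
      have e2 : (q : ℝ) ^ d ≤ n := by exact_mod_cast e1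
      have e3 : (q : ℝ) ^ 6 = ((q : ℝ) ^ d) ^ (6 / (d : ℝ)) := by
        rw [← Real.rpow_natCast (q : ℝ) d, ← Real.rpow_mul hq0.le, mul_div_cancel₀ _ hd0.ne']
        norm_num
      rw [e3]
      calc ((q : ℝ) ^ d) ^ (6 / (d : ℝ)) ≤ (n : ℝ) ^ (6 / (d : ℝ)) :=
            Real.rpow_le_rpow (by positivity) e2 (by positivity)
        _ ≤ (n : ℝ) ^ (ε / 2) := Real.rpow_le_rpow_of_exponent_le (by
            have : 1 ≤ n := by omega
            exact_mod_cast this) hde
    have hC := hn₁ n hnn1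
    have hpow : (n : ℝ) ^ ((3 : ℝ) - ε) = (n : ℝ) ^ 3 / ((n : ℝ) ^ (ε / 2) * (n : ℝ) ^ (ε / 2)) := by
      rw [← Real.rpow_add hn0, Real.rpow_sub hn0]
      norm_num
    rw [hpow]
    have hA : 0 < (n : ℝ) ^ (ε / 2) := Real.rpow_pos_of_pos hn0 _
    calc (n : ℝ) ^ 3 / ((n : ℝ) ^ (ε / 2) * (n : ℝ) ^ (ε / 2))
        ≤ (K * (q : ℝ) ^ d) ^ 3 / ((125 * d ^ 3 * K ^ 3) * (q : ℝ) ^ 6) := by
          apply div_le_div₀ (by positivity) (pow_le_pow_left₀ hn0.le hx 3) (by positivity)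
          exact mul_le_mul hC hq6 (by positivity) hA.le
      _ = ((q : ℝ) ^ d) * ((q : ℝ) ^ (2 * d) / (5 * d * q ^ 2) ^ 3) := by
          field_simp
          ring
      _ ≤ (16 * ((9 * d * q : ℕ) : ℝ) ^ d) * ((prs d q (9 * d * q) s t u).card : ℝ) := by
          apply mul_le_mul ?_ hcard (by positivity) (by positivity)
          have e1 : q ^ d ≤ (9 * d * q) ^ d := Nat.pow_le_pow_left (by nlinarith) d
          have e2 : (q : ℝ) ^ d ≤ ((9 * d * q : ℕ) : ℝ) ^ d := by exact_mod_cast e1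
          have e3 : 0 ≤ ((9 * d * q : ℕ) : ℝ) ^ d := by positivity
          linarith

theorem big_join {D E : ℕ} {e f : ℝ} (he : 0 ≤ e) (hf : 0 ≤ f) (h1 : Big D e) (h2 : Big E f) :
    Big (D + E) (e + f) := by
  intro ε hε
  obtain ⟨a, ha⟩ := h1 (ε / 4) (by positivity)
  obtain ⟨b, hb⟩ := h2 (ε / 4) (by positivity)
  obtain ⟨c, hc⟩ := ev_big (ε / 2) ((3 : ℝ) ^ (e + f)) (by positivity)
  refine ⟨2 * a + 2 * b + c + 4, fun n hn => ?_⟩
  obtain ⟨V, i1, i2, i3, G, hG1, hG2, hG3⟩ := ha (n / 2) (by omega)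
  obtain ⟨W, j1, j2, j3, H, hH1, hH2, hH3⟩ := hb (n - n / 2) (by omega)
  refine ⟨V ⊕ W, inferInstance, inferInstance, inferInstance, joinG G H, ?_, hG2.join hH2, ?_⟩
  · rw [Fintype.card_sum, hG1, hH1]; omega
  · have hj : (fac D G : ℝ) * (fac E H : ℝ) ≤ (fac (D + E) (joinG G H) : ℝ) := by
      exact_mod_cast fac_join D E G H
    refine le_trans ?_ hj
    have hn0 : (0 : ℝ) < n := by
      have : 0 < n := by omega
      exact_mod_cast this
    have part : ∀ (k : ℕ) (g x : ℝ), 0 ≤ g → n ≤ 3 * k → k ≤ n → ((k : ℝ)) ^ (g - ε / 4) ≤ x →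
        ((n : ℝ) / 3) ^ g / (n : ℝ) ^ (ε / 4) ≤ x := by
      intro k g x hg hk1 hk2 hx
      have hk0 : (0 : ℝ) < k := by
        have : 0 < k := by omega
        exact_mod_cast this
      refine le_trans ?_ hx
      rw [Real.rpow_sub hk0]
      apply div_le_div₀ (Real.rpow_nonneg hk0.le _) ?_ (Real.rpow_pos_of_pos hk0 _) ?_
      · apply Real.rpow_le_rpow (by positivity) ?_ hg
        rw [div_le_iff₀ (by norm_num)]
        have : (n : ℝ) ≤ 3 * k := by exact_mod_cast hk1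
        linarith
      · apply Real.rpow_le_rpow hk0.le (by exact_mod_cast hk2) (by positivity)
    have p1 := part (n / 2) e _ he (by omega) (by omega) hG3
    have p2 := part (n - n / 2) f _ hf (by omega) (by omega) hH3
    have hA : 0 < (n : ℝ) ^ (ε / 4) := Real.rpow_pos_of_pos hn0 _
    have h3 : ((n : ℝ) / 3) ^ e / (n : ℝ) ^ (ε / 4) * (((n : ℝ) / 3) ^ f / (n : ℝ) ^ (ε / 4)) ≤
        (fac D G : ℝ) * (fac E H : ℝ) := by
      apply mul_le_mul p1 p2 (by positivity) (by positivity)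
    refine le_trans ?_ h3
    have h4 : ((n : ℝ) / 3) ^ e / (n : ℝ) ^ (ε / 4) * (((n : ℝ) / 3) ^ f / (n : ℝ) ^ (ε / 4)) =
        (n : ℝ) ^ (e + f) / (3 : ℝ) ^ (e + f) / (n : ℝ) ^ (ε / 2) := by
      have e1 : ((n : ℝ) / 3) ^ (e + f) = (n : ℝ) ^ (e + f) / (3 : ℝ) ^ (e + f) :=
        Real.div_rpow hn0.le (by norm_num) _
      rw [← e1, Real.rpow_add (by positivity : (0 : ℝ) < (n : ℝ) / 3),
        show ε / 2 = ε / 4 + ε / 4 by ring, Real.rpow_add hn0]
      field_simp
    rw [h4]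
    have h5 := hc n (by omega)
    have h6 : (n : ℝ) ^ (e + f - ε) = (n : ℝ) ^ (e + f) / (n : ℝ) ^ (ε / 2) / (n : ℝ) ^ (ε / 2) := by
      rw [show e + f - ε = e + f - ε / 2 - ε / 2 by ring, Real.rpow_sub hn0, Real.rpow_sub hn0]
    rw [h6]
    have hB : 0 < (n : ℝ) ^ (ε / 2) := Real.rpow_pos_of_pos hn0 _
    apply div_le_div_of_nonneg_right ?_ hB.le
    apply div_le_div_of_nonneg_left (Real.rpow_nonneg hn0.le _) (by positivity) h5

theorem big_all : ∀ m : ℕ, 1 ≤ m → Big (2 * m) ((3 * m / 2 : ℕ) : ℝ) := by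
  intro m
  induction m using Nat.strong_induction_on with
  | _ m ih =>
    intro hm
    rcases Nat.lt_or_ge m 3 with h | h
    · interval_cases m
      · have := big_cyc
        norm_num
        exact this
      · have := big_four
        norm_num
        exact this
    · have h1 := ih (m - 2) (by omega) (by omega)
      have h2 := big_join (by positivity) (by norm_num) h1 big_four
      have e1 : 2 * (m - 2) + 4 = 2 * m := by omega
      have e2 : ((3 * (m - 2) / 2 : ℕ) : ℝ) + 3 = ((3 * m / 2 : ℕ) : ℝ) := by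
        have : 3 * (m - 2) / 2 + 3 = 3 * m / 2 := by omega
        exact_mod_cast this
      rw [e1, e2] at h2
      exact h2

/-- the number of facets of a pseudomanifold of dimension `d ≥ 2` is at most `n ^ d` -/
theorem facets_le {V : Type*} [Fintype V] {d : ℕ} (hd : 2 ≤ d) (K : AbstractSimplicialComplex V)
    (hK : IsPseudomanifold d K) : faceNum K d ≤ Fintype.card V ^ d := by
  classical
  obtain ⟨-, -, h2⟩ := hK
  let A : Finset (Finset V) := univ.filter fun t => t ∈ K.faces ∧ t.card = d + 1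
  have hA : faceNum K d = A.card := by
    unfold faceNum
    rw [← Set.ncard_coe_finset]
    congr 1
    ext t
    simp [A]
  let B : Finset (Finset V) := univ.filter fun s => s.card = d ∧ s ∈ K.faces
  have hsub : ∀ t ∈ A, ∃ s ∈ B, s ⊆ t := by
    intro t ht
    simp only [A, Finset.mem_filter, Finset.mem_univ, true_and] at ht
    obtain ⟨s, hs, hc⟩ := Finset.exists_subset_card_eq (show d ≤ t.card by omega)
    refine ⟨s, ?_, hs⟩
    simp only [B, Finset.mem_filter, Finset.mem_univ, true_and]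
    refine ⟨hc, (K.isRelLowerSet_faces ht.1).2 hs ?_⟩
    exact Finset.card_pos.1 (by omega)
  choose! g hg1 hg2 using hsub
  have hfib : ∀ s ∈ B, (A.filter fun t => g t = s).card ≤ 2 := by
    intro s hs
    simp only [B, Finset.mem_filter, Finset.mem_univ, true_and] at hs
    rw [← h2 s hs.2 hs.1, ← Set.ncard_coe_finset]
    apply Set.ncard_le_ncard ?_ (Set.toFinite _)
    intro t ht
    simp only [Finset.coe_filter, Set.mem_setOf_eq] at ht
    have ht1 := ht.1
    simp only [A, Finset.mem_filter, Finset.mem_univ, true_and] at ht1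
    exact ⟨ht1.1, ht.2 ▸ hg2 t ht.1, ht1.2⟩
  have h3 : A.card ≤ 2 * B.card :=
    Finset.card_le_mul_card_image_of_maps_to hg1 2 hfib
  have h4 : B.card ≤ (Fintype.card V).choose d := by
    have : B ⊆ Finset.powersetCard d (univ : Finset V) := by
      intro s hs
      simp only [B, Finset.mem_filter, Finset.mem_univ, true_and] at hs
      rw [Finset.mem_powersetCard]
      exact ⟨Finset.subset_univ _, hs.1⟩
    have := Finset.card_le_card this
    rwa [Finset.card_powersetCard, Finset.card_univ] at this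
  have h5 : (Fintype.card V).choose d * d.factorial ≤ Fintype.card V ^ d := by
    rw [mul_comm, ← Nat.descFactorial_eq_factorial_mul_choose]
    exact Nat.descFactorial_le_pow _ _
  have h6 : 2 ≤ d.factorial := le_trans hd (Nat.self_le_factorial d)
  rw [hA]
  nlinarith

end Pool.Agent.Y330.FP
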